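import Mathlib
import Pool.Agent.MWN.StmtsA
import Pool.Agent.MVO.StmtsG

set_option autoImplicit false

namespace Pool.Agent.MWN.H95

open Pool.Agent.Helper14_MV Pool.Agent.Helper2_MV Pool.Agent.MVO Pool.Agent.MWL Pool.Agent.MWS
  Pool.Agent.MWF Pool.Agent.MWN

theorem blk {k : ℕ} {U : ℕ → List ℕ} (h : Two01 k U) : BlkOk k U := by
  intro j hj c hc
  rcases h j hj c hc with h1 | h1
  · subst h1
    simp [NS]
  · subst h1
    simp [NS]

theorem nvg (hONE : OneStmt) (hNBF : NbfStmt) : NvgStmt := by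
  intro β hC hN k A B S i hA hB hS
  apply le_gaml
  rintro u v huv ⟨U, rfl, hU, hUA, hUB, hSU⟩
  obtain ⟨V, rfl, hV⟩ := hNBF β hC hN k U v hU huv
  have h0 : L1 β k (ty U 0) (ty V 0) := hONE.1 β k U V 0 (by simp [NS]) (blk hU) (blk hV) huv
  have h1 : L1 β k (ty U 1) (ty V 1) := hONE.1 β k U V 1 (by simp [NS]) (blk hU) (blk hV) huv
  have hVA := hA _ _ hUA h0
  have hVB := hB _ _ hUB h1
  exact ⟨V, rfl, hV, hVA, hVB, hS U V hU hV hUA hUB hVA hVB huv hSU⟩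

end Pool.Agent.MWN.H95
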